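import Pool.Agent.Run7.h641.CT.Main

/-!
# Elliptic curves over imaginary quadratic (and all other) number fields: all cuspidal twists on the edge

`E` is an elliptic curve over an arbitrary number field `K`, in particular over an imaginary quadratic field, given by an integral Weierstrass equation
`W`; nothing is assumed about the modularity of `E` or about a continuation of its `L`-functions. For a
unitary cuspidal automorphic representation `π` of `GL_n(𝔸_K)`, `n ≥ 1` arbitrary, with Satake parameters
`α_{v,1}, …, α_{v,n}`, the Euler product of `L(E × π, s)` has the factors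
`∏_j (1 - a_v α_{v,j} q_v^{-s} + q_v (α_{v,j} q_v^{-s})²)⁻¹`, `a_v = q_v + 1 - #E(k_v)`; `S` is a finite
set of primes which contains those dividing `6 Δ(W)` and those where `π` is ramified, and the factors at
`S` are omitted (they have no zeros and no poles on the edge). The edge of absolute convergence is
`Re s = 3/2`; the points `3/2 + iτ` of the edge are included, since `π` may be replaced by the
representation `π ⊗ |det|^{iτ}`.

Theorem. Let `π_i`, `i ∈ ι`, be finitely many pairwise inequivalent unitary cuspidal automorphic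
representations of `GL_{n_i}(𝔸_K)`, with arbitrary `n_i`, unramified outside `S`. Let
`x_i(ε) = log |L(E × π_i, 3/2 + ε)| / log (1/ε)` and `y(ε) = log |L(Sym² E, 2 + ε)| / log (1/ε)`.

1. (Bessel's inequality, without any continuation.) For every `η > 0` and all small `ε > 0`,
   `∑_i x_i(ε)² ≤ 1 + y(ε) + η` and `y(ε) ≤ 3 + η`. So `∑_i x_i(ε)² ≤ 4 + 2 η`.
2. If the functions `L(E × π_i, s)` have meromorphic continuations to neighbourhoods of `3/2`, with the
   orders `m_i ∈ ℤ` (positive for zeros, negative for poles), then `∑_i m_i² ≤ 4`. So among ALL cuspidal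
   representations of ALL `GL_n(𝔸_K)` and all points of the edge at most four give a zero or a pole.
3. If moreover `L(Sym² E, s)` has a meromorphic continuation to a neighbourhood of `2`, of order `r`, then
   `-3 ≤ r` and `r + ∑_i m_i² ≤ 1`. If here equality holds then `E` is automorphic almost everywhere:
   `∑_v |a_v / √q_v + ∑_i m_i conj(tr π_{i,v})|² / q_v < ∞`.
4. In particular, if `L(Sym² E, s)` has no pole at `s = 2` and `L(E × π_i, s)` has a zero or a pole at
   `s = 3/2` for one `i`, then it is simple, `r = 0`, all other `L(E × π_j, s)` have neither zero nor pole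
   at `s = 3/2`, and `∑_v |a_v / √q_v ± conj(tr π_{i,v})|² / q_v < ∞`, with `+` for a zero and `-` for a pole:
   one pole of one cuspidal twist at one point of the edge implies the modularity of `E` outside a set of
   primes which is small in this sense.

The theorem `ArtinTwists` of the starting files is the inequality `∑ m_i² ≤ 4` for the twists with
irreducible Artin representations, where the orthogonality comes from Chebotarev's theorem; here the
twists are all cuspidal representations, the orthogonality comes from the theory of Rankin and Selberg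
(Jacquet, Piatetski-Shapiro, Shalika), the bound `4` is replaced by the symmetric square, and the case of
equality is described.

The known facts about the representations which are used are the fields of the structure `Cuspidal`:
`|α_{v,j}| ≤ √q_v`, the absolute convergence of `L(s, π_i × π_i~)` for `Re s > 1`, its simple pole at
`s = 1`, and the holomorphy and nonvanishing of `L(s, π_i × π_j~)` at `s = 1` for `i ≠ j`; `logL f s` is
`∑_{v ∉ S} ∑_{k ≥ 1} f v k / k · q_v^{-ks}`.

Proof. With the weights `q_v^{-kσ} / k` on the prime powers, `σ = 1 + ε`, the Euler systems of the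
conjugates of the `π_i` are an orthogonal system with squares `log (1/ε)`, up to bounded errors, the
products with the Euler system of `E` (whose values are real) are `log |L(E × π_i, 3/2 + ε)|`, and the
square of the Euler system of `E` is `log (1/ε) + log |L(Sym² E, 2 + ε)|`, up to a bounded error. In the
case of equality the square of the difference of `E` and the combination of the `π_i` is bounded for
`ε → 0`. The bound of Hasse is proved in the starting files.
-/

set_option autoImplicit false

namespace Pool.Agent.Results.MP_87c685_nt.CuspidalTwists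

open NumberField IsDedekindDomain Filter Topology ComplexConjugate
open Pool.Agent.TH861.GL3 (PL qq)
open Pool.Agent.W540.BE (trv)
open Pool.Agent.Run7.h641.CT

/-- All cuspidal twists of an elliptic curve over a number field on the edge of absolute convergence. -/
theorem result (K : Type) [Field K] [NumberField K] (W : WeierstrassCurve (𝓞 K))
    (S : Finset (HeightOneSpectrum (𝓞 K)))
    (hS : ∀ v : HeightOneSpectrum (𝓞 K), 6 * W.Δ ∈ v.asIdeal → v ∈ S)
    (ι : Type) [Fintype ι] (n : ι → ℕ) (α : ∀ i, PL S → Fin (n i) → ℂ) (h : Cuspidal α) :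
    (∀ i, ∀ᶠ ε : ℝ in 𝓝[>] 0, LE W (α i) (3 / 2 + ε) ≠ 0) ∧
    (∀ η : ℝ, 0 < η → ∀ᶠ ε : ℝ in 𝓝[>] 0,
      ∑ i, size (LE W (α i)) (3 / 2) ε ^ 2 ≤ 1 + size (LSym W S) 2 ε + η ∧
        size (LSym W S) 2 ε ≤ 3 + η) ∧
    ∀ Λ : ι → ℂ → ℂ, (∀ i, Continues (Λ i) (LE W (α i)) (3 / 2)) →
      ∃ m : ι → ℤ, (∀ i, meromorphicOrderAt (Λ i) (3 / 2) = m i) ∧ ∑ i, m i ^ 2 ≤ 4 ∧
        ∀ M : ℂ → ℂ, Continues M (LSym W S) 2 →
          ∃ r : ℤ, meromorphicOrderAt M 2 = r ∧ -3 ≤ r ∧ r + ∑ i, m i ^ 2 ≤ 1 ∧
            (r + ∑ i, m i ^ 2 = 1 → Summable fun v : PL S =>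
              ‖(trv W v.1 : ℂ) / ((Real.sqrt (qq v.1 : ℝ) : ℝ) : ℂ) +
                ∑ i, (m i : ℂ) * conj (tr (α i v) 1)‖ ^ 2 / (qq v.1 : ℝ)) ∧
            ∀ i, 0 ≤ r → m i ≠ 0 → r = 0 ∧ (m i = 1 ∨ m i = -1) ∧ (∀ j, j ≠ i → m j = 0) ∧
              Summable fun v : PL S =>
                ‖(trv W v.1 : ℂ) / ((Real.sqrt (qq v.1 : ℝ) : ℝ) : ℂ) +
                  (m i : ℂ) * conj (tr (α i v) 1)‖ ^ 2 / (qq v.1 : ℝ) := by
  obtain ⟨γ, hg⟩ := exists_gam hS
  refine ⟨LE_ne_zero h hg, fun η hη => ineq h hg hη, fun Λ hΛ => ?_⟩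
  obtain ⟨m, hm1, hm2, hm3⟩ := orders h hg hΛ
  refine ⟨m, hm1, hm2, fun M hM => ?_⟩
  obtain ⟨r, hr1, hr2, hr3, hr4⟩ := hm3 M hM
  refine ⟨r, hr1, hr2, hr3, hr4, fun i h0 hi => ?_⟩
  classical
  have h1 : m i ^ 2 + ∑ j ∈ Finset.univ.erase i, m j ^ 2 = ∑ j, m j ^ 2 :=
    Finset.add_sum_erase Finset.univ (fun j => m j ^ 2) (Finset.mem_univ i)
  have h2 : 1 ≤ m i ^ 2 := by
    have := Int.one_le_abs hi
    nlinarith [sq_abs (m i)]
  have h3 : 0 ≤ ∑ j ∈ Finset.univ.erase i, m j ^ 2 := Finset.sum_nonneg fun j _ => sq_nonneg _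
  have h4 : r = 0 := by omega
  have h5 : m i ^ 2 = 1 := by omega
  have h6 : ∑ j ∈ Finset.univ.erase i, m j ^ 2 = 0 := by omega
  have h7 : ∀ j, j ≠ i → m j = 0 := by
    intro j hj
    have := (Finset.sum_eq_zero_iff_of_nonneg fun j _ => sq_nonneg (m j)).1 h6 j
      (Finset.mem_erase.2 ⟨hj, Finset.mem_univ j⟩)
    exact pow_eq_zero_iff (n := 2) two_ne_zero |>.1 this
  refine ⟨h4, ?_, h7, ?_⟩
  · have h8 : (m i - 1) * (m i + 1) = 0 := by linarith [h5, sq (m i)]
    rcases mul_eq_zero.1 h8 with h9 | h9
    · exact Or.inl (by omega)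
    · exact Or.inr (by omega)
  refine (hr4 (by omega)).congr fun v => ?_
  rw [Finset.sum_eq_single_of_mem i (Finset.mem_univ i) fun j _ hj => by rw [h7 j hj]; simp]

end Pool.Agent.Results.MP_87c685_nt.CuspidalTwists
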