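import Pool.Agent.Run7.h238.G15.Dens
import Pool.Agent.Run7.h424.DC.Fin
import Pool.Agent.Run7.h293.MD.Main

/-!
# All elliptic curves over a positive proportion of all imaginary quadratic fields are modular

Caraiani and Newton proved that all elliptic curves over an imaginary quadratic field `K` are modular if
the modular curve `X_0(15) : y² = x (x - 9) (x - 25)` has finitely many points over `K`. Here we show
that this is so for a positive proportion of all imaginary quadratic fields: if `n` is squarefree and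
congruent to `23` or `47` modulo `60` and not the product of two numbers `b, c > 1` such that `b` is a
square modulo the primes dividing `c` and `c` is a square modulo the primes dividing `b`
(equivalently, `ℚ(√(-n))` has no ideal class of order four), then `X_0(15)` has finitely many points
over `K = ℚ(√(-n))`. All primes of the two classes are of this kind, and exactly the proportion
`η = ∏_{i ≥ 1} (1 - 2^{-i}) = 0.2888...` of the squarefree `n` of the two classes, so at least 1.5 percent
of all squarefree `n`, that is, of all imaginary quadratic fields.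

The complete `2`-descent on the twists of `X_0(15)` and the density are from the P15 project
(`Run7/h424/DC`, `Run7/h238/G15`, helpers 424, 238, 741, 135, 483, 209, 555, 843, 26; equidistribution:
`N916/GB`, `N218/GB`, `N958`).
-/

set_option autoImplicit false

open Filter Topology WeierstrassCurve

namespace Pool.Agent.Results.MP_87c685_nt.PositiveProportionOfFields

open Pool.Agent.Run7.h293.MD (X015)

/-- the two classes -/
def Class (n : ℕ) : Prop := Squarefree n ∧ (n % 60 = 23 ∨ n % 60 = 47)

/-- whenever `b c = n`, where `b` is a square modulo all primes dividing `c` and `c` is a square modulo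
all primes dividing `b`, then `b = 1` or `c = 1` -/
def Criterion (n : ℕ) : Prop :=
  ∀ b c : ℕ, b * c = n → (∀ p : ℕ, p.Prime → p ∣ c → IsSquare (b : ZMod p)) →
    (∀ p : ℕ, p.Prime → p ∣ b → IsSquare (c : ZMod p)) → b = 1 ∨ c = 1

/-- a property of elliptic curves over number fields, for example modularity -/
abbrev Property : Type 1 := ∀ (K : Type) [Field K] [NumberField K], WeierstrassCurve K → Prop

/-- `K = ℚ(√(-n))` -/
def IsField (n : ℕ) (K : Type) [Field K] [NumberField K] : Prop :=
  Module.finrank ℚ K = 2 ∧ ∃ θ : K, θ ^ 2 = -(n : K)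

/-- All elliptic curves over `ℚ(√(-n))` have the property `M`. -/
def AllCurves (M : Property) (n : ℕ) : Prop :=
  ∀ (K : Type) [Field K] [NumberField K], IsField n K → ∀ W : WeierstrassCurve K, W.IsElliptic → M K W

/-- The theorem of Caraiani and Newton for `M` = modularity: all elliptic curves over an imaginary
quadratic field `K` over which `X_0(15)` has finitely many points are modular. -/
def CaraianiNewton (M : Property) : Prop :=
  ∀ (n : ℕ) (K : Type) [Field K] [NumberField K], 0 < n → IsField n K →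
    Finite (X015⁄K).toAffine.Point → ∀ W : WeierstrassCurve K, W.IsElliptic → M K W

/-- the number of the `n ≤ X` of the two classes with the property `Q` -/
noncomputable def num (Q : ℕ → Prop) (X : ℕ) : ℕ :=
  Nat.card {n : ℕ // n ≤ X ∧ Class n ∧ Q n}

/-- the number of the squarefree `n ≤ X` with the property `Q` -/
noncomputable def numAll (Q : ℕ → Prop) (X : ℕ) : ℕ :=
  Nat.card {n : ℕ // n ≤ X ∧ Squarefree n ∧ Q n}

/-- the constant `0.2888...` -/
noncomputable def η : ℝ := ∏' i : ℕ, (1 - (1 / 2 : ℝ) ^ (i + 1))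

section proof

open Pool.Agent.N969.P15 (Qc)
open Finset
open Run7.h238.G15 (Aa Bb Tt)

theorem sq_iff {p : ℕ} (hp : p.Prime) {b : ℕ} (hb : ¬ p ∣ b) :
    jacobiSym b p = 1 ↔ IsSquare (b : ZMod p) := by
  have : Fact p.Prime := ⟨hp⟩
  have h0 : ((b : ℤ) : ZMod p) ≠ 0 := by
    rw [Int.cast_natCast]
    intro h
    exact hb ((ZMod.natCast_eq_zero_iff b p).1 h)
  rw [← jacobiSym.legendreSym.to_jacobiSym, legendreSym.eq_one_iff p h0, Int.cast_natCast]

theorem crit_iff {n : ℕ} (h : Squarefree n) : Criterion n ↔ Qc n := by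
  have key : ∀ b c : ℕ, b * c = n →
      (((∀ p : ℕ, p.Prime → p ∣ c → IsSquare (b : ZMod p)) ↔
        (∀ p ∈ c.primeFactors, jacobiSym b p = 1)) ∧
      ((∀ p : ℕ, p.Prime → p ∣ b → IsSquare (c : ZMod p)) ↔
        (∀ p ∈ b.primeFactors, jacobiSym c p = 1))) := by
    intro b c hbc
    have hc0 : c ≠ 0 := by
      rintro rfl
      rw [mul_zero] at hbc
      exact h.ne_zero hbc.symm
    have hb0 : b ≠ 0 := by
      rintro rfl
      rw [zero_mul] at hbc
      exact h.ne_zero hbc.symm
    have hco : b.Coprime c := by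
      rw [← hbc] at h
      exact (Nat.squarefree_mul_iff.1 h).1
    constructor
    · constructor
      · intro h1 p hp
        have hp' := Nat.prime_of_mem_primeFactors hp
        have hd := Nat.dvd_of_mem_primeFactors hp
        refine (sq_iff hp' fun hpb => ?_).2 (h1 p hp' hd)
        exact hp'.one_lt.ne' (Nat.eq_one_of_dvd_coprimes hco hpb hd)
      · intro h1 p hp' hd
        refine (sq_iff hp' fun hpb => ?_).1 (h1 p (Nat.mem_primeFactors.2 ⟨hp', hd, hc0⟩))
        exact hp'.one_lt.ne' (Nat.eq_one_of_dvd_coprimes hco hpb hd)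
    · constructor
      · intro h1 p hp
        have hp' := Nat.prime_of_mem_primeFactors hp
        have hd := Nat.dvd_of_mem_primeFactors hp
        refine (sq_iff hp' fun hpb => ?_).2 (h1 p hp' hd)
        exact hp'.one_lt.ne' (Nat.eq_one_of_dvd_coprimes hco hd hpb)
      · intro h1 p hp' hd
        refine (sq_iff hp' fun hpb => ?_).1 (h1 p (Nat.mem_primeFactors.2 ⟨hp', hd, hb0⟩))
        exact hp'.one_lt.ne' (Nat.eq_one_of_dvd_coprimes hco hd hpb)
  constructor
  · intro h1 b c hbc h2 h3
    exact h1 b c hbc ((key b c hbc).1.2 h2) ((key b c hbc).2.2 h3)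
  · intro h1 b c hbc h2 h3
    exact h1 b c hbc ((key b c hbc).1.1 h2) ((key b c hbc).2.1 h3)

theorem prime_crit {p : ℕ} (hp : p.Prime) : Criterion p := by
  intro b c hbc _ _
  rcases (Nat.dvd_prime hp).1 ⟨c, hbc.symm⟩ with h | h
  · exact Or.inl h
  · right
    rw [h] at hbc
    exact Nat.eq_of_mul_eq_mul_left hp.pos (by rw [hbc, mul_one])

theorem finite_twist {n : ℕ} (h : Class n) (hc : Criterion n) :
    Finite (Pool.Agent.Run7.h293.MD.E n).toAffine.Point := by
  have hW : Pool.Agent.Run7.h293.MD.E n =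
      ⟨0, ((34 * (n : ℤ) : ℤ) : ℚ), 0, ((225 * (n : ℤ) ^ 2 : ℤ) : ℚ), 0⟩ := by
    unfold Pool.Agent.Run7.h293.MD.E
    push_cast
    rfl
  exact ((Run7.h424.DC.iffF h.1 h.2 hW).2 ((crit_iff h.1).1 hc)).1

theorem finite_points (h15 : Finite X015.toAffine.Point) {n : ℕ} (h : Class n)
    (hc : Criterion n) (K : Type) [Field K] [NumberField K] (hK : IsField n K) :
    Finite (X015⁄K).toAffine.Point := by
  obtain ⟨h2, θ, hθ⟩ := hK
  have hn : 0 < n := by
    have := h.2
    omega
  exact Pool.Agent.Run7.h293.MD.finite_X015 h15 hn (finite_twist h hc) K h2 θ hθ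

theorem num_eq (Q : ℕ → Prop) [DecidablePred fun n : ℕ => Class n ∧ Q n] (X : ℕ) :
    num Q X = ((Icc 1 X).filter fun n => Class n ∧ Q n).card := by
  unfold num
  refine Nat.subtype_card _ fun n => ?_
  rw [mem_filter, mem_Icc]
  constructor
  · rintro ⟨⟨_, h1⟩, h2⟩
    exact ⟨h1, h2⟩
  · rintro ⟨h1, h2, h3⟩
    refine ⟨⟨?_, h1⟩, h2, h3⟩
    have := h2.2
    omega

theorem numAll_eq (Q : ℕ → Prop) [DecidablePred fun n : ℕ => Squarefree n ∧ Q n] (X : ℕ) :
    numAll Q X = ((Icc 1 X).filter fun n => Squarefree n ∧ Q n).card := by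
  unfold numAll
  refine Nat.subtype_card _ fun n => ?_
  rw [mem_filter, mem_Icc]
  constructor
  · rintro ⟨⟨_, h1⟩, h2⟩
    exact ⟨h1, h2⟩
  · rintro ⟨h1, h2, h3⟩
    exact ⟨⟨Nat.one_le_iff_ne_zero.mpr h2.ne_zero, h1⟩, h2, h3⟩

theorem num_crit (X : ℕ) : num Criterion X = Aa X := by
  classical
  rw [num_eq]
  unfold Aa
  refine congrArg Finset.card (Finset.filter_congr fun n _ => ?_)
  constructor
  · rintro ⟨h1, h2⟩
    exact ⟨h1.1, h1.2, (crit_iff h1.1).1 h2⟩
  · rintro ⟨h1, h2, h3⟩
    exact ⟨⟨h1, h2⟩, (crit_iff h1).2 h3⟩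

theorem num_cls (X : ℕ) : num (fun _ => True) X = Bb X := by
  classical
  rw [num_eq]
  unfold Bb
  refine congrArg Finset.card (Finset.filter_congr fun n _ => ?_)
  exact and_iff_left trivial

theorem numAll_true (X : ℕ) : numAll (fun _ => True) X = Tt X := by
  classical
  rw [numAll_eq]
  unfold Tt
  refine congrArg Finset.card (Finset.filter_congr fun n _ => ?_)
  exact and_iff_left trivial

theorem num_mono {P Q : ℕ → Prop} (h : ∀ n, Class n → P n → Q n) (X : ℕ) : num P X ≤ num Q X := by
  classical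
  rw [num_eq, num_eq]
  refine Finset.card_le_card fun n hn => ?_
  rw [mem_filter] at hn ⊢
  exact ⟨hn.1, hn.2.1, h n hn.2.1 hn.2.2⟩

theorem num_le_numAll {P Q : ℕ → Prop} (h : ∀ n, Class n → P n → Q n) (X : ℕ) :
    num P X ≤ numAll Q X := by
  classical
  rw [num_eq, numAll_eq]
  refine Finset.card_le_card fun n hn => ?_
  rw [mem_filter] at hn ⊢
  exact ⟨hn.1, hn.2.1.1, h n hn.2.1 hn.2.2⟩

theorem density : Tendsto (fun X : ℕ => (num Criterion X : ℝ) / (num (fun _ => True) X : ℝ))
    atTop (𝓝 η) := by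
  have h : Tendsto (fun Y : ℕ => (Aa Y : ℝ) / (Bb Y : ℝ)) atTop (𝓝 Pool.Agent.N916.GB.eta) :=
    Pool.Agent.N916.GB.density_Qc
  have hη : Pool.Agent.N916.GB.eta = η := rfl
  rw [hη] at h
  refine h.congr fun X => ?_
  rw [num_crit, num_cls]

end proof

/-- **All elliptic curves over a positive proportion of all imaginary quadratic fields are modular.**
Hypotheses: the theorem of Caraiani and Newton, and that `X_0(15)` has finitely many rational points. -/
theorem result (M : Property) (hCN : CaraianiNewton M) (h15 : Finite X015.toAffine.Point) :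
    (∀ n : ℕ, Class n → Criterion n → ∀ (K : Type) [Field K] [NumberField K], IsField n K →
      Finite (X015⁄K).toAffine.Point) ∧
    (∀ n : ℕ, Class n → Criterion n → AllCurves M n) ∧
    (∀ p : ℕ, p.Prime → p % 60 = 23 ∨ p % 60 = 47 → AllCurves M p) ∧
    Tendsto (fun X : ℕ => (num Criterion X : ℝ) / (num (fun _ => True) X : ℝ)) atTop (𝓝 η) ∧
    0.2887 < η ∧ η < 0.2889 ∧
    (∀ᶠ X : ℕ in atTop, 0.2887 * (num (fun _ => True) X : ℝ) ≤ (num (AllCurves M) X : ℝ)) ∧
    ∀ᶠ X : ℕ in atTop, 0.015 * (numAll (fun _ => True) X : ℝ) ≤ (numAll (AllCurves M) X : ℝ) := by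
  have hη1 : 0.2887 < η := Pool.Agent.N916.GB.eta_bounds.1
  have hη2 : η < 0.2889 := Pool.Agent.N916.GB.eta_bounds.2
  have hall : ∀ n : ℕ, Class n → Criterion n → AllCurves M n := by
    intro n hn hc K _ _ hK W hW
    refine hCN n K ?_ hK (finite_points h15 hn hc K hK) W hW
    have := hn.2
    omega
  refine ⟨fun n hn hc K _ _ hK => finite_points h15 hn hc K hK, hall, fun p hp h60 =>
    hall p ⟨hp.prime.squarefree, h60⟩ (prime_crit hp), density, hη1, hη2, ?_, ?_⟩
  · have h1 := density.eventually (lt_mem_nhds hη1)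
    filter_upwards [h1] with X hX
    have h2 : (num Criterion X : ℝ) ≤ (num (AllCurves M) X : ℝ) := by
      exact_mod_cast num_mono hall X
    have h3 : (0 : ℝ) < (num (fun _ => True) X : ℝ) := by
      rcases Nat.eq_zero_or_pos (num (fun _ => True) X) with h | h
      · rw [h, Nat.cast_zero, div_zero] at hX
        norm_num at hX
      · exact_mod_cast h
    have h4 := (lt_div_iff₀ h3).1 hX
    linarith
  · have h1 : (0.0075 : ℝ) < 5 / 192 * Pool.Agent.N916.GB.eta := by
      have : 0.2887 < Pool.Agent.N916.GB.eta := hη1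
      norm_num at this ⊢
      linarith
    have h2 := Run7.h238.G15.lim_AT.eventually (lt_mem_nhds h1)
    filter_upwards [h2, eventually_gt_atTop 0] with X hX hX0
    rw [numAll_true]
    have h3 : (Run7.h238.G15.Aa X : ℝ) ≤ (numAll (AllCurves M) X : ℝ) := by
      rw [← num_crit]
      exact_mod_cast num_le_numAll hall X
    have h4 : (0 : ℝ) ≤ (Run7.h238.G15.Tt X : ℝ) := Nat.cast_nonneg _
    rcases h4.eq_or_lt with h5 | h5
    · rw [← h5, mul_zero]
      exact Nat.cast_nonneg _
    · rw [lt_div_iff₀ (by positivity)] at hX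
      linarith

end Pool.Agent.Results.MP_87c685_nt.PositiveProportionOfFields
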