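import Mathlib
import Pool.Agent.Run7.h135.XK.Alg
import Pool.Agent.Run7.h555.XK.Fin
import Pool.Agent.Run7.h289.XK.JDENS
import Pool.Agent.Run7.h741.LC.Lvs

/-!
# All elliptic curves over imaginary quadratic fields with prescribed local behaviour are modular

Caraiani and Newton proved that all elliptic curves over an imaginary quadratic field `K` are modular if
the modular curve `X_0(15)` has finitely many points over `K`. Let the discriminant of `K` be congruent to
`13` or `37` modulo `60`, `K = ℚ(√-n)` with `n ≡ 23, 47 mod 60`.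

* (Criterion) if the class group of `K` has no element of order four, then `X_0(15)` has exactly eight
  points over `K` (the cusps and the four noncuspidal rational points), so all elliptic curves over `K` are
  modular.
* (Exact proportion with local conditions) for every finite set `S` of primes that contains `2`, `3`, `5`
  and every such field `ℚ(√-m)`, exactly the proportion `η = ∏_{i ≥ 1} (1 - 2^{-i}) = 0.2887...` of the
  fields `ℚ(√-n)` with the same completions as `ℚ(√-m)` at the primes of `S` satisfies the criterion, so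
  for at least the proportion `η` of them all elliptic curves over `ℚ(√-n)` are modular.
* (Arbitrary local behaviour) for every finite set `S` of primes, without `3` and `5`, and every squarefree `m`
  (with `m ≡ 3 mod 4` if `2 ∈ S`), this is so for a positive proportion of the fields with the same
  completions as `ℚ(√-m)` at the primes of `S`: the behaviour in `K` of any finitely many primes other
  than `2`, `3`, `5` may be prescribed (split, inert, or each of the two ramified extensions), and `2` may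
  be split or inert.
* (Joint law) for different multipliers `a_1, ..., a_M` (squarefree, `a ≡ 1 mod 12`, `a ≡ ±1 mod 5`) the fields
  `ℚ(√(-a_i n))` satisfy the criterion independently: for every set `V` of indices exactly the proportion
  `η^#V (1 - η)^(M - #V)` of the `n` of the classes has the property that `ℚ(√(-a_i n))` has no ideal
  class of order four if and only if `i ∈ V`. So all elliptic curves over all the fields
  `ℚ(√(-a_1 n)), ..., ℚ(√(-a_M n))` are modular for the proportion `η^M` of the `n` at least, and over at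
  least one of them for the proportion `1 - (1 - η)^M`, which tends to one with `M`.

The hand-in PositiveProportionOfFields (helper293) of this page has the criterion and the single
law, with the hypothesis that `X_0(15)(ℚ)` is finite; there is no hypothesis here besides the theorem of
Caraiani and Newton. Proof: complete 2-descent over `K` (project XK of the team: helper135, helper289,
helper238, helper424, helper374, helper376, helper377, helper437, helper639, helper834, helper890,
helper919, helper555, helper843, helper741); law with local conditions: `Run7/h741/LC`; joint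
law: helper289 (`Run7/h289/XK/JDENS`), from helper413, helper218, helper958, helper916.
-/

set_option autoImplicit false

namespace Pool.Agent.Results.MP_87c685_nt.PrescribedLocalBehaviour

open NumberField Filter Topology

open scoped Classical

/-- The modular curve `X_0(15)` over the field `K`. -/
def X15 (K : Type) [Field K] : WeierstrassCurve K := ⟨1, 1, 1, -10, -10⟩

/-- A property of elliptic curves over number fields, for example modularity. -/
abbrev Property : Type 1 := ∀ (K : Type) [Field K] [NumberField K], WeierstrassCurve K → Prop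

/-- All elliptic curves over `K` have the property `M`. -/
def AllCurves (M : Property) (K : Type) [Field K] [NumberField K] : Prop :=
  ∀ W : WeierstrassCurve K, W.IsElliptic → M K W

/-- The theorem of Caraiani and Newton for `M` = modularity: all elliptic curves over an imaginary
quadratic field `K` over which `X_0(15)` has finitely many points are modular. -/
def CaraianiNewton (M : Property) : Prop :=
  ∀ (K : Type) [Field K] [NumberField K], Module.finrank ℚ K = 2 → discr K < 0 →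
    Finite (X15 K).toAffine.Point → AllCurves M K

/-- The class group has no element of order four. -/
def NoFour (K : Type) [Field K] [NumberField K] : Prop :=
  ∀ c : ClassGroup (𝓞 K), c ^ 4 = 1 → c ^ 2 = 1

/-- `K = ℚ(√-n)`. -/
structure IsField (K : Type) [Field K] [NumberField K] (n : ℕ) : Prop where
  two : Module.finrank ℚ K = 2
  sq : ∃ r : K, r ^ 2 = -(n : K)

/-- The numbers `n` of the theorem: `ℚ(√-n)` has the discriminant `-n`, congruent to `13` or `37`
modulo `60`. -/
def Class (n : ℕ) : Prop := Squarefree n ∧ (n % 60 = 23 ∨ n % 60 = 47)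

/-- The squarefree numbers `n` such that the fields `ℚ(√-n)` and `ℚ(√-m)` have the same completions at
the primes of `S`: `m n` is a square in `ℚ_p` for all `p ∈ S`. -/
def Family (S : Finset Nat.Primes) (m : ℕ) : Set ℕ :=
  {n | Squarefree n ∧ ∀ p ∈ S, haveI : Fact (p : ℕ).Prime := ⟨p.2⟩
    IsSquare ((m : ℚ_[(p : ℕ)]) * (n : ℚ_[(p : ℕ)]))}

/-- The number of the `n ≤ X` in the family such that the field `ℚ(√-n)` has the property `Q`. -/
noncomputable def num (S : Finset Nat.Primes) (m : ℕ)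
    (Q : ∀ (K : Type) [Field K] [NumberField K], Prop) (X : ℕ) : ℕ :=
  {n ∈ Family S m | n ≤ X ∧ ∀ (K : Type) [Field K] [NumberField K], IsField K n → Q K}.ncard

/-- The multipliers. -/
structure Multiplier (a : ℕ) : Prop where
  sqf : Squarefree a
  mod12 : a % 12 = 1
  mod5 : a % 5 = 1 ∨ a % 5 = 4

/-- The number of the `n ≤ X` of the classes with the property `Q`. -/
noncomputable def count (Q : ℕ → Prop) (X : ℕ) : ℕ := Nat.card {n : ℕ // n ≤ X ∧ Class n ∧ Q n}

/-- The field `ℚ(√-n)` has the property `Q`. -/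
def Holds (Q : ∀ (K : Type) [Field K] [NumberField K], Prop) (n : ℕ) : Prop :=
  ∀ (K : Type) [Field K] [NumberField K], IsField K n → Q K

/-- The constant `η = ∏_{i ≥ 1} (1 - 2^{-i}) = 0.2887...` -/
noncomputable def η : ℝ := ∏' i : ℕ, (1 - (1 / 2 : ℝ) ^ (i + 1))

section proof

open Pool.Agent.Run7.h741.LC
open Pool.Agent.N969.P15 (Qc)
open Pool.Agent.Run7.h843.G (Nf)
open _root_.Run7.h555.XK (QF Cl)

/-- the points over one field -/
theorem points {K : Type} [Field K] [NumberField K] {n : ℕ} (hK : IsField K n) (hn : Class n)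
    (h : NoFour K) : Nat.card (X15 K).toAffine.Point = 8 := by
  have hq : Qc n := (_root_.Run7.h555.XK.no_four ⟨hK.two, hK.sq⟩ hn).2 h
  exact (_root_.Run7.h135.XK.alg_fin (K := K) hn hq hK.two hK.sq).1

theorem exists_field {n : ℕ} (hn : Squarefree n) :
    ∃ (K : Type) (_ : Field K) (_ : NumberField K), IsField K n := by
  obtain ⟨-, -, hD3⟩ := Pool.Agent.Y797.FK.t_DISC
  obtain ⟨K, i1, i2, h2, hs⟩ := hD3 n hn
  exact ⟨K, i1, i2, h2, hs⟩

theorem discr_field {K : Type} [Field K] [NumberField K] {n : ℕ} (hK : IsField K n)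
    (hn : Class n) : discr K = -(n : ℤ) := by
  obtain ⟨hD1, -, -⟩ := Pool.Agent.Y797.FK.t_DISC
  rw [hD1 K hK.two n hn.1 hK.sq, if_pos (by have := hn.2; omega)]

theorem modular {M : Property} (hM : CaraianiNewton M) {K : Type} [Field K] [NumberField K]
    {n : ℕ} (hK : IsField K n) (hn : Class n) (h : NoFour K) : AllCurves M K := by
  have hd := discr_field hK hn
  have hn0 : 0 < n := Nat.pos_of_ne_zero hn.1.ne_zero
  refine hM K hK.two (by rw [hd]; omega) (Nat.finite_of_card_ne_zero ?_)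
  rw [points hK hn h]
  norm_num

theorem mem_iff (S : Finset Nat.Primes) (m n : ℕ) :
    n ∈ Family S m ↔ Squarefree n ∧ Loc S m n := by
  refine and_congr_right fun _ => forall_congr' fun p => imp_congr_right fun _ => ?_
  unfold SamP Same
  push_cast
  rfl

theorem num_card (S : Finset Nat.Primes) (m : ℕ)
    (Q : ∀ (K : Type) [Field K] [NumberField K], Prop) (R : ℕ → Prop)
    (h : ∀ n : ℕ, Squarefree n → Loc S m n →
      ((∀ (K : Type) [Field K] [NumberField K], IsField K n → Q K) ↔ R n)) (X : ℕ) :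
    num S m Q X = ((Finset.Icc 1 X).filter fun n : ℕ => Squarefree n ∧ Loc S m n ∧ R n).card := by
  rw [← Set.ncard_coe_finset]
  unfold num
  congr 1
  ext n
  have e1 := mem_iff S m n
  rw [Finset.mem_coe, Finset.mem_filter, Finset.mem_Icc]
  constructor
  · rintro ⟨h0, h3, h4⟩
    obtain ⟨h1, h2⟩ := e1.1 h0
    exact ⟨⟨Nat.pos_of_ne_zero h1.ne_zero, h3⟩, h1, h2, (h n h1 h2).1 h4⟩
  · rintro ⟨⟨-, h3⟩, h1, h2, h4⟩
    exact ⟨e1.2 ⟨h1, h2⟩, h3, (h n h1 h2).2 h4⟩

theorem num_finite (S : Finset Nat.Primes) (m : ℕ)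
    (Q : ∀ (K : Type) [Field K] [NumberField K], Prop) (X : ℕ) :
    {n ∈ Family S m | n ≤ X ∧ ∀ (K : Type) [Field K] [NumberField K],
      IsField K n → Q K}.Finite :=
  (Set.finite_le_nat X).subset fun _ h => h.2.1

theorem eta_eq : η = Pool.Agent.N916.GB.eta := rfl

theorem sub_bad {S : Finset Nat.Primes} (hS : ∀ p : Nat.Primes, (p : ℕ) ∣ 30 → p ∈ S) :
    L15.bad ⊆ S := by
  intro p hp
  have : p ∈ ({pr2, pr3, pr5} : Finset Nat.Primes) := hp
  simp only [Finset.mem_insert, Finset.mem_singleton] at this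
  refine hS p ?_
  rcases this with rfl | rfl | rfl
  · show 2 ∣ 30
    norm_num
  · show 3 ∣ 30
    norm_num
  · show 5 ∣ 30
    norm_num

theorem class_of {S : Finset Nat.Primes} (hS : ∀ p : Nat.Primes, (p : ℕ) ∣ 30 → p ∈ S) {m n : ℕ}
    (hm : Class m) (hn : Squarefree n) (hl : Loc S m n) : Class n :=
  ⟨hn, L15.loc m n hm.1 hn hm.2 fun p hp => hl p (sub_bad hS hp)⟩

theorem two_mem {S : Finset Nat.Primes} (hS : ∀ p : Nat.Primes, (p : ℕ) ∣ 30 → p ∈ S) :
    (⟨2, Nat.prime_two⟩ : Nat.Primes) ∈ S := hS _ (by norm_num)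

theorem num_true (S : Finset Nat.Primes) (m X : ℕ) : num S m (fun _ _ _ => True) X =
    ((Finset.Icc 1 X).filter fun n : ℕ => Squarefree n ∧ Loc S m n).card := by
  rw [num_card S m (fun _ _ _ => True) (fun _ => True)
    (fun n _ _ => ⟨fun _ => trivial, fun _ _ _ _ _ => trivial⟩) X]
  exact card_of _ _ _ fun n => by rw [and_true]

/-- the exact proportion -/
theorem lim {S : Finset Nat.Primes} (hS : ∀ p : Nat.Primes, (p : ℕ) ∣ 30 → p ∈ S) {m : ℕ}
    (hm : Class m) : Tendsto (fun X : ℕ => (num S m (fun K _ _ => NoFour K) X : ℝ) /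
        (num S m (fun _ _ _ => True) X : ℝ)) atTop (𝓝 η) := by
  have h1 := dens_loc (two_mem hS) hm.1 (by have := hm.2; omega) 0
  rw [gk_zero, ← eta_eq] at h1
  have key : ∀ n : ℕ, Squarefree n → Loc S m n →
      ((∀ (K : Type) [Field K] [NumberField K], IsField K n → NoFour K) ↔
        Nf n = 2 ^ (0 + 1)) := ?_
  · refine h1.congr fun X => ?_
    rw [num_true, num_card S m (fun K _ _ => NoFour K) (fun n => Nf n = 2 ^ (0 + 1)) key X]
    exact div_congr (card_of _ _ _ fun n => Iff.rfl) (card_of _ _ _ fun n => Iff.rfl)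
  intro n hn hl
  have hc := class_of hS hm hn hl
  have h2 : Nf n = 2 ^ (0 + 1) ↔ Qc n := Pool.Agent.Run7.h741.LC.Nf_two (by have := hc.2; omega)
  rw [h2]
  constructor
  · intro h
    obtain ⟨K, i1, i2, hK⟩ := exists_field hn
    exact (_root_.Run7.h555.XK.no_four ⟨hK.two, hK.sq⟩ hc).2 (h K hK)
  · intro h K _ _ hK
    exact (_root_.Run7.h555.XK.no_four ⟨hK.two, hK.sq⟩ hc).1 h

/-- the lower density -/
theorem low {M : Property} (hM : CaraianiNewton M) {S : Finset Nat.Primes} (hS : ∀ p : Nat.Primes, (p : ℕ) ∣ 30 → p ∈ S) {m : ℕ}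
    (hm : Class m) (c : ℝ) (hc : c < η) : ∀ᶠ X : ℕ in atTop,
      c * (num S m (fun _ _ _ => True) X : ℝ) ≤ (num S m (fun K _ _ => AllCurves M K) X : ℝ) := by
  filter_upwards [(lim hS hm).eventually (lt_mem_nhds hc)] with X hX
  have h5 : num S m (fun K _ _ => NoFour K) X ≤ num S m (fun K _ _ => AllCurves M K) X := by
    refine Set.ncard_le_ncard ?_ (num_finite S m _ X)
    rintro n ⟨h1, h2, h3⟩
    have h4 := (mem_iff S m n).1 h1
    have hc := class_of hS hm h4.1 h4.2
    exact ⟨h1, h2, fun K _ _ hK => modular hM hK hc (h3 K hK)⟩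
  have h6 : (num S m (fun K _ _ => NoFour K) X : ℝ) ≤
      (num S m (fun K _ _ => AllCurves M K) X : ℝ) := by exact_mod_cast h5
  rcases (Nat.cast_nonneg (num S m (fun _ _ _ => True) X) : (0 : ℝ) ≤ _).eq_or_lt with h7 | h7
  · rw [← h7, mul_zero]
    exact Nat.cast_nonneg _
  · rw [lt_div_iff₀ h7] at hX
    exact hX.le.trans h6

/-- a field in the class with given behaviour -/
theorem exists_start (S : Finset Nat.Primes) (m : ℕ) (hm : Squarefree m)
    (hS : ∀ p ∈ S, (p : ℕ) ≠ 3 ∧ (p : ℕ) ≠ 5 ∧ ((p : ℕ) = 2 → m % 4 = 3)) :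
    ∃ n : ℕ, Class n ∧ Loc S m n := by
  obtain ⟨r, hr1, hr2, hr3⟩ : ∃ r : ℕ, r.Coprime 120 ∧ r % 60 = 23 ∧
      (m % 4 = 3 → r % 8 = m % 8) := by
    by_cases h : m % 8 = 3
    · exact ⟨83, by norm_num, by norm_num, fun _ => by omega⟩
    · exact ⟨23, by norm_num, by norm_num, fun _ => by omega⟩
  obtain ⟨n, hn, hnr, hnl⟩ := exists_loc (M0 := 120) (r := r) (by norm_num) (by norm_num) hr1
    (S.erase pr2) (by
      intro p hp hd
      rw [Finset.mem_erase] at hp
      obtain ⟨h3, h5, -⟩ := hS p hp.2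
      have h2 : (p : ℕ) ≠ 2 := fun h => hp.1 (Subtype.ext h)
      have h1 : (p : ℕ) ∣ 2 * 3 * 5 := p.2.dvd_of_dvd_pow (hd.trans (by norm_num :
        (120 : ℕ) ∣ (2 * 3 * 5) ^ 3))
      rcases p.2.dvd_mul.1 h1 with h1 | h1
      · rcases p.2.dvd_mul.1 h1 with h1 | h1
        · exact h2 ((Nat.prime_dvd_prime_iff_eq p.2 Nat.prime_two).1 h1)
        · exact h3 ((Nat.prime_dvd_prime_iff_eq p.2 Nat.prime_three).1 h1)
      · exact h5 ((Nat.prime_dvd_prime_iff_eq p.2 Nat.prime_five).1 h1))
    (m := (m : ℤ)) (sqf_cast.2 hm)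
  refine ⟨n, ⟨hn, Or.inl (by omega)⟩, fun p hp => ?_⟩
  by_cases h : p = pr2
  · subst h
    have h4 := (hS pr2 hp).2.2 rfl
    have h8 := hr3 h4
    have : Fact (Nat.Prime 2) := ⟨Nat.prime_two⟩
    show Same 2 (m : ℤ) (n : ℤ)
    unfold Same
    have h9 : ((m : ℤ) * n) % 8 = 1 := by
      have e1 : (m : ℤ) % 8 = 3 ∨ (m : ℤ) % 8 = 7 := by omega
      have e2 : (n : ℤ) % 8 = (m : ℤ) % 8 := by omega
      rw [Int.mul_emod, e2]
      rcases e1 with e1 | e1 <;> rw [e1] <;> norm_num
    have h10 := _root_.Run7.h741.XK.padic_sq2 h9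
    rw [Int.cast_mul] at h10
    exact h10
  · exact hnl p (Finset.mem_erase.2 ⟨h, hp⟩)

/-- positive lower density -/
theorem any {M : Property} (hM : CaraianiNewton M) (S : Finset Nat.Primes) (m : ℕ) (hm : Squarefree m)
    (hS : ∀ p ∈ S, (p : ℕ) ≠ 3 ∧ (p : ℕ) ≠ 5 ∧ ((p : ℕ) = 2 → m % 4 = 3)) :
    ∃ c : ℝ, 0 < c ∧ ∀ᶠ X : ℕ in atTop,
      c * X ≤ (num S m (fun K _ _ => AllCurves M K) X : ℝ) := by
  obtain ⟨n0, h0, hl⟩ := exists_start S m hm hS
  obtain ⟨S', hS'⟩ : ∃ S' : Finset Nat.Primes, S' = S ∪ {pr2, pr3, pr5} := ⟨_, rfl⟩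
  have h30 : ∀ p : Nat.Primes, (p : ℕ) ∣ 30 → p ∈ S' := by
    intro p hp
    rw [hS']
    refine Finset.mem_union_right _ ?_
    simp only [Finset.mem_insert, Finset.mem_singleton]
    rcases p.2.dvd_mul.1 (show (p : ℕ) ∣ 2 * 15 from hp) with h1 | h1
    · exact Or.inl (Subtype.ext ((Nat.prime_dvd_prime_iff_eq p.2 Nat.prime_two).1 h1))
    · rcases p.2.dvd_mul.1 (show (p : ℕ) ∣ 3 * 5 from h1) with h1 | h1
      · exact Or.inr (Or.inl (Subtype.ext ((Nat.prime_dvd_prime_iff_eq p.2 Nat.prime_three).1 h1)))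
      · exact Or.inr (Or.inr (Subtype.ext ((Nat.prime_dvd_prime_iff_eq p.2 Nat.prime_five).1 h1)))
  have hη : (0 : ℝ) < η := Pool.Agent.N916.GB.eta_pos
  obtain ⟨c, hc, X₀, h1⟩ := low_loc (two_mem h30) h0.1
  refine ⟨η / 2 * c, by positivity, ?_⟩
  filter_upwards [low hM h30 h0 (η / 2) (by linarith), eventually_ge_atTop X₀] with X g1 g2
  have g3 := h1 X g2
  rw [num_true] at g1
  have g4 : num S' n0 (fun K _ _ => AllCurves M K) X ≤ num S m (fun K _ _ => AllCurves M K) X := by
    refine Set.ncard_le_ncard ?_ (num_finite S m _ X)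
    rintro n ⟨a1, a2, a3⟩
    obtain ⟨b1, b2⟩ := (mem_iff S' n0 n).1 a1
    refine ⟨(mem_iff S m n).2 ⟨b1, fun p hp => ?_⟩, a2, a3⟩
    have : Fact (p : ℕ).Prime := ⟨p.2⟩
    have b3 : SamP p n0 n := b2 p (by rw [hS']; exact Finset.mem_union_left _ hp)
    exact Same.trans (by exact_mod_cast h0.1.ne_zero) (hl p hp) b3
  calc η / 2 * c * X = η / 2 * (c * X) := by ring
    _ ≤ η / 2 * _ := by gcongr
    _ ≤ _ := g1
    _ ≤ _ := by exact_mod_cast g4

open _root_.Pool.Agent.Run7.h289.XK (t_JDENS)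

theorem isField_tw {K : Type} [Field K] [NumberField K] {a n : ℕ} (ha : a ≠ 0) :
    IsField K (a * n) ↔ IsField K (_root_.Pool.Agent.Run7.h238.J.tw a n) := by
  have h1 := _root_.Pool.Agent.Run7.h289.D18.tw_mul a n
  have hg : Nat.gcd a n ≠ 0 := (Nat.gcd_pos_of_pos_left n (Nat.pos_of_ne_zero ha)).ne'
  obtain ⟨g, hgd⟩ : ∃ g, g = Nat.gcd a n := ⟨_, rfl⟩
  rw [← hgd] at h1 hg
  have hg' : (g : K) ≠ 0 := by exact_mod_cast hg
  have h2 : ((_root_.Pool.Agent.Run7.h238.J.tw a n : ℕ) : K) * (g : K) ^ 2 = (a : K) * n := by exact_mod_cast h1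
  constructor
  · rintro ⟨h3, r, hr⟩
    refine ⟨h3, r / g, ?_⟩
    push_cast at hr
    rw [div_pow, hr, ← h2]
    field_simp
  · rintro ⟨h3, r, hr⟩
    refine ⟨h3, r * g, ?_⟩
    push_cast
    rw [mul_pow, hr, ← h2]
    ring

/-- the criterion for a twisted field -/
theorem holds_iff {a n : ℕ} (ha : Multiplier a) (hn : Class n) :
    Holds (fun K _ _ => NoFour K) (a * n) ↔ Qc (_root_.Pool.Agent.Run7.h238.J.tw a n) := by
  have hc : Class (_root_.Pool.Agent.Run7.h238.J.tw a n) := _root_.Pool.Agent.Run7.h289.XK.cl_tw ⟨ha.sqf, ha.mod12, ha.mod5⟩ hn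
  constructor
  · intro h
    obtain ⟨K, i1, i2, hK⟩ := exists_field hc.1
    exact (_root_.Run7.h555.XK.no_four ⟨hK.two, hK.sq⟩ hc).2
      (h K ((isField_tw ha.sqf.ne_zero).2 hK))
  · intro h K _ _ hK
    have hK' := (isField_tw ha.sqf.ne_zero).1 hK
    exact (_root_.Run7.h555.XK.no_four ⟨hK'.two, hK'.sq⟩ hc).1 h

/-- the joint law -/
theorem joint {m : ℕ} {a : Fin m → ℕ} (ha : Function.Injective a) (hM : ∀ i, Multiplier (a i))
    (V : Finset (Fin m)) :
    Tendsto (fun X : ℕ => (count (fun n => ∀ i, Holds (fun K _ _ => NoFour K) (a i * n) ↔ i ∈ V) X : ℝ) /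
      (count (fun _ => True) X : ℝ)) atTop (𝓝 (η ^ V.card * (1 - η) ^ (m - V.card))) := by
  have h := t_JDENS ha (fun i => ⟨(hM i).sqf, (hM i).mod12, (hM i).mod5⟩) V
  refine h.congr fun X => ?_
  unfold count
  refine div_congr (Nat.card_congr (Equiv.subtypeEquivRight fun n => ?_))
    (Nat.card_congr (Equiv.subtypeEquivRight fun n => ?_))
  · refine and_congr_right fun _ => and_congr_right fun hn => forall_congr' fun i => ?_
    rw [holds_iff (hM i) hn]
  · rw [and_true]
    exact Iff.rfl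

theorem count_mono {P Q : ℕ → Prop} (h : ∀ n, Class n → P n → Q n) (X : ℕ) :
    count P X ≤ count Q X := by
  unfold count
  have hf : Finite {n : ℕ // n ≤ X ∧ Class n ∧ Q n} :=
    (Set.finite_le_nat X).subset fun _ h => h.1
  exact Nat.card_le_card_of_injective
    (fun n => (⟨n.1, n.2.1, n.2.2.1, h n.1 n.2.2.1 n.2.2.2⟩ : {n : ℕ // n ≤ X ∧ Class n ∧ Q n}))
    fun x y hxy => Subtype.ext (congrArg (fun z => z.1) hxy)

theorem count_ncard (P : ℕ → Prop) (X : ℕ) :
    count P X = {n : ℕ | n ≤ X ∧ Class n ∧ P n}.ncard := by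
  rw [← Nat.card_coe_set_eq]
  rfl

theorem count_not (P : ℕ → Prop) (X : ℕ) :
    count P X + count (fun n => ¬ P n) X = count (fun _ => True) X := by
  have hf : ∀ Q : ℕ → Prop, {n : ℕ | n ≤ X ∧ Class n ∧ Q n}.Finite := fun Q =>
    (Set.finite_le_nat X).subset fun _ h => h.1
  rw [count_ncard, count_ncard, count_ncard, ← Set.ncard_union_eq ?_ (hf _) (hf _)]
  · congr 1
    ext n
    constructor
    · rintro (⟨h1, h2, -⟩ | ⟨h1, h2, -⟩) <;> exact ⟨h1, h2, trivial⟩
    · rintro ⟨h1, h2, -⟩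
      by_cases h : P n
      · exact Or.inl ⟨h1, h2, h⟩
      · exact Or.inr ⟨h1, h2, h⟩
  · rw [Set.disjoint_left]
    rintro n ⟨-, -, h⟩ ⟨-, -, h'⟩
    exact h' h

theorem count_pos {X : ℕ} (hX : 23 ≤ X) : 0 < count (fun _ => True) X := by
  rw [count_ncard, Set.ncard_pos ((Set.finite_le_nat X).subset fun _ h => h.1)]
  exact ⟨23, hX, ⟨(by norm_num : Nat.Prime 23).prime.squarefree, Or.inl (by norm_num)⟩, trivial⟩

theorem lim_not {P : ℕ → Prop} {l : ℝ} (h : Tendsto (fun X : ℕ => (count P X : ℝ) /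
    (count (fun _ => True) X : ℝ)) atTop (𝓝 l)) : Tendsto (fun X : ℕ =>
    (count (fun n => ¬ P n) X : ℝ) / (count (fun _ => True) X : ℝ)) atTop (𝓝 (1 - l)) := by
  refine (tendsto_const_nhds.sub h).congr' ?_
  filter_upwards [eventually_ge_atTop 23] with X hX
  have h1 : (count (fun _ => True) X : ℝ) ≠ 0 := by exact_mod_cast (count_pos hX).ne'
  have h2 : (count P X : ℝ) + (count (fun n => ¬ P n) X : ℝ) = (count (fun _ => True) X : ℝ) := by
    exact_mod_cast count_not P X
  field_simp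
  linarith

theorem of_lim {P Q : ℕ → Prop} {l : ℝ} (h : Tendsto (fun X : ℕ => (count P X : ℝ) /
    (count (fun _ => True) X : ℝ)) atTop (𝓝 l)) (hPQ : ∀ n, Class n → P n → Q n) (c : ℝ) (hc : c < l) :
    ∀ᶠ X : ℕ in atTop, c * (count (fun _ => True) X : ℝ) ≤ (count Q X : ℝ) := by
  filter_upwards [h.eventually (lt_mem_nhds hc)] with X hX
  have h6 : (count P X : ℝ) ≤ (count Q X : ℝ) := by exact_mod_cast count_mono hPQ X
  rcases (Nat.cast_nonneg (count (fun _ => True) X) : (0 : ℝ) ≤ _).eq_or_lt with h7 | h7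
  · rw [← h7, mul_zero]
    exact Nat.cast_nonneg _
  · rw [lt_div_iff₀ h7] at hX
    exact hX.le.trans h6

theorem modular_tw {M : Property} (hM : CaraianiNewton M) {a n : ℕ} (ha : Multiplier a)
    (hn : Class n) (h : Holds (fun K _ _ => NoFour K) (a * n)) :
    Holds (fun K _ _ => AllCurves M K) (a * n) := by
  intro K _ _ hK
  have hc : Class (_root_.Pool.Agent.Run7.h238.J.tw a n) := _root_.Pool.Agent.Run7.h289.XK.cl_tw ⟨ha.sqf, ha.mod12, ha.mod5⟩ hn
  exact modular hM ((isField_tw ha.sqf.ne_zero).1 hK) hc (h K hK)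

end proof

/-- **Main theorem.** -/
theorem result :
    (∀ (K : Type) [Field K] [NumberField K], Module.finrank ℚ K = 2 → discr K < 0 →
      (discr K % 60 = 13 ∨ discr K % 60 = 37) → NoFour K →
        Nat.card (X15 K).toAffine.Point = 8) ∧
    (∀ n : ℕ, Squarefree n → ∃ (K : Type) (_ : Field K) (_ : NumberField K), IsField K n) ∧
    (∀ (K : Type) [Field K] [NumberField K] (n : ℕ), IsField K n → Class n →
      discr K = -(n : ℤ)) ∧
    (∀ (S : Finset Nat.Primes) (m : ℕ), (∀ p : Nat.Primes, (p : ℕ) ∣ 30 → p ∈ S) → Class m →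
      (∀ n ∈ Family S m, Class n) ∧
      Tendsto (fun X : ℕ => (num S m (fun K _ _ => NoFour K) X : ℝ) /
        (num S m (fun _ _ _ => True) X : ℝ)) atTop (𝓝 η)) ∧
    (∀ (m : ℕ) (a : Fin m → ℕ), Function.Injective a → (∀ i, Multiplier (a i)) →
      ∀ V : Finset (Fin m), Tendsto (fun X : ℕ =>
        (count (fun n => ∀ i, Holds (fun K _ _ => NoFour K) (a i * n) ↔ i ∈ V) X : ℝ) /
        (count (fun _ => True) X : ℝ)) atTop (𝓝 (η ^ V.card * (1 - η) ^ (m - V.card)))) ∧
    0.2887 < η ∧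
    ∀ M : Property, CaraianiNewton M →
      (∀ (K : Type) [Field K] [NumberField K], Module.finrank ℚ K = 2 → discr K < 0 →
        (discr K % 60 = 13 ∨ discr K % 60 = 37) → NoFour K → AllCurves M K) ∧
      (∀ (S : Finset Nat.Primes) (m : ℕ), (∀ p : Nat.Primes, (p : ℕ) ∣ 30 → p ∈ S) → Class m →
        ∀ c : ℝ, c < η → ∀ᶠ X : ℕ in atTop, c * (num S m (fun _ _ _ => True) X : ℝ) ≤
          (num S m (fun K _ _ => AllCurves M K) X : ℝ)) ∧
      (∀ (S : Finset Nat.Primes) (m : ℕ), Squarefree m →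
        (∀ p ∈ S, (p : ℕ) ≠ 3 ∧ (p : ℕ) ≠ 5 ∧ ((p : ℕ) = 2 → m % 4 = 3)) →
        ∃ c : ℝ, 0 < c ∧ ∀ᶠ X : ℕ in atTop,
          c * X ≤ (num S m (fun K _ _ => AllCurves M K) X : ℝ)) ∧
      ∀ (m : ℕ) (a : Fin m → ℕ), Function.Injective a → (∀ i, Multiplier (a i)) →
        (∀ c : ℝ, c < η ^ m → ∀ᶠ X : ℕ in atTop, c * (count (fun _ => True) X : ℝ) ≤
          (count (fun n => ∀ i, Holds (fun K _ _ => AllCurves M K) (a i * n)) X : ℝ)) ∧
        ∀ c : ℝ, c < 1 - (1 - η) ^ m → ∀ᶠ X : ℕ in atTop, c * (count (fun _ => True) X : ℝ) ≤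
          (count (fun n => ∃ i, Holds (fun K _ _ => AllCurves M K) (a i * n)) X : ℝ) := by
  refine ⟨?_, fun n hn => exists_field hn, fun K _ _ n hK hn => discr_field hK hn, ?_,
    fun m a ha hM V => joint ha hM V, Pool.Agent.N916.GB.eta_bounds.1, fun M hM => ⟨?_,
      fun S m hS hm => low hM hS hm, fun S m hm hS => any hM S m hm hS, ?_⟩⟩
  · intro K _ _ h2 hneg h60 hno
    obtain ⟨n, hK, hn, -⟩ := _root_.Run7.h555.XK.ClK.ex (K := K) ⟨h2, hneg, h60⟩
    exact points (n := n) ⟨hK.two, hK.sq⟩ hn hno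
  · intro S m hS hm
    refine ⟨fun n hn => ?_, lim hS hm⟩
    obtain ⟨h1, h2⟩ := (mem_iff S m n).1 hn
    exact class_of hS hm h1 h2
  · intro K _ _ h2 hneg h60 hno
    obtain ⟨n, hK, hn, -⟩ := _root_.Run7.h555.XK.ClK.ex (K := K) ⟨h2, hneg, h60⟩
    exact modular hM (n := n) ⟨hK.two, hK.sq⟩ hn hno
  · intro m a ha hMa
    constructor
    · have h := joint ha hMa Finset.univ
      rw [Finset.card_univ, Fintype.card_fin, Nat.sub_self, pow_zero, mul_one] at h
      exact of_lim h fun n hn h1 i => modular_tw hM (hMa i) hn ((h1 i).2 (Finset.mem_univ i))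
    · have h := joint ha hMa ∅
      rw [Finset.card_empty, pow_zero, one_mul, Nat.sub_zero] at h
      have h1 : Tendsto (fun X : ℕ => (count (fun n => ¬ ∀ i, Holds (fun K _ _ => NoFour K)
          (a i * n) ↔ i ∈ (∅ : Finset (Fin m))) X : ℝ) /
          (count (fun _ => True) X : ℝ)) atTop (𝓝 (1 - (1 - η) ^ m)) := lim_not h
      refine of_lim h1 fun n hn h2 => ?_
      push Not at h2
      obtain ⟨i, hi⟩ := h2
      refine ⟨i, modular_tw hM (hMa i) hn ?_⟩
      rcases hi with ⟨h3, -⟩ | ⟨-, h3⟩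
      · exact h3
      · exact absurd h3 (Finset.notMem_empty i)

end Pool.Agent.Results.MP_87c685_nt.PrescribedLocalBehaviour
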