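import Pool.Agent.Run7.h61.HK.Mom

/-!
# The L-functions of all elliptic curves twisted by arbitrary tempered data, on average and uniformly

`K` is a number field (imaginary quadratic in the question). By the converse theorem the modularity of an elliptic
curve `E` over `K` is a statement on all the twists `L(E ⊗ ψ, s)` by Hecke characters `ψ`: continuation, boundedness
in vertical strips and the functional equation; and if `E` is modular, the functions `L(E × π, s)` of Rankin and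
Selberg continue too. Here the average over all the curves `E : y² = x³ + a x + b` over `𝓞 K` is treated, with
bounds which are uniform in the twist and in `Im s`.

Let `χ_1, …, χ_n` be arbitrary functions of the places of `K` with `|χ_i(v)| ≤ 1`. Examples: the Satake parameters
of a tempered automorphic representation `π` of `GL_n` over `K`, in any order and `0` at the ramified places (for
`n = 1` all unitary Hecke characters, of finite or infinite order; for `n = 2` the Bianchi newforms with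
`|α_v| = |β_v| = 1`, for example those that are attached to elliptic curves), or a union of such. Then
`∏_i L(E ⊗ χ_i, s) = L(E × π, s)` and `∏_(i<j) L(χ_i χ_j, w) = L(∧² π, w)`. The Euler factors of `E` are those at the
places prime to `2` at which `x³ + a x + b` is separable.

1. For `Re s > 3/2` the mean of `∏ L(E ⊗ χ_i, s)` over the smooth `E` in growing boxes tends to
   `∏_(i<j) L(χ_i χ_j, 2 s - 1) G_χ(s)`, uniformly on `Re s ≥ σ`, and uniformly in all the `χ`.
2. `G_χ` is holomorphic for `Re s > 5/6` (the centre is `s = 1`) and bounded for `Re s ≥ σ > 5/6` by a number which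
   does not depend on `χ`; it is positive at the real points if all the sums `∑_i χ_i(v)^m` are real. So the
   average of `L(E ⊗ ψ, s)` continues to `Re s > 5/6` as a bounded holomorphic function for every `ψ`, with a bound
   uniform in `ψ`; and the average of `L(E × F, s)` over `E` is `ζ_K(2 s - 1) G_F(s)` up to finitely many Euler
   factors, with a simple pole at the centre, for every tempered `F` on `GL_2` with trivial central character and
   real traces.
3. The same is true for the partial Euler products over `Nv ≤ Z` for `Re s ≥ σ > 5/6`, `Z → ∞`, as soon as the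
   sides of the box are at least `exp(Z^(1+θ))`, uniformly in all the `χ` and in `s`.
4. For all `k` the mean of `|L_Z(E ⊗ χ, s)|^(2k)`, `L_Z` the partial product, is at most `B ζ_(K,Z)(2 Re s - 1)^(k(2k-1))`
   for all `χ` and all `s` with `Re s ≥ σ > 5/6`: the Lindelöf hypothesis on average for these products, uniformly in
   `χ` and in `Im s`; for quadratic `χ` the exponent `k(2k-1)` is the exact one at the centre.
-/

set_option autoImplicit false

open NumberField IsDedekindDomain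

namespace Pool.Agent.Results.MP_87c685_nt.TwistsByTemperedForms

open Run7.h61.HK
open Run7.h876.EN (mean)

/-- **The twists of all elliptic curves by arbitrary tempered data, on average, uniformly in the twists.** -/
theorem result (K : Type) [Field K] [NumberField K] {ι : Type} [Fintype ι] [DecidableEq ι] (ω : Module.Basis ι ℤ (𝓞 K)) :
    (∀ n : ℕ, ∃ G : (Fin n → HeightOneSpectrum (𝓞 K) → ℂ) → ℂ → ℂ,
      (∀ χ : Fin n → HeightOneSpectrum (𝓞 K) → ℂ, (∀ i v, ‖χ i v‖ ≤ 1) → DifferentiableOn ℂ (G χ) {s | 5 / 6 < s.re}) ∧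
      (∀ σ : ℝ, 5 / 6 < σ → ∃ B : ℝ, ∀ χ : Fin n → HeightOneSpectrum (𝓞 K) → ℂ, (∀ i v, ‖χ i v‖ ≤ 1) →
        ∀ s : ℂ, σ ≤ s.re → ‖G χ s‖ ≤ B) ∧
      (∀ χ : Fin n → HeightOneSpectrum (𝓞 K) → ℂ, (∀ i v, ‖χ i v‖ ≤ 1) → (∀ v (m : ℕ), (∑ i, χ i v ^ (m + 1)).im = 0) →
        ∀ x : ℝ, 5 / 6 < x → ∃ r : ℝ, 0 < r ∧ G χ x = r) ∧
      (∀ σ : ℝ, 3 / 2 < σ → ∀ ε : ℝ, 0 < ε → ∃ M : ℕ, ∀ H : Fin 2 ⊕ Empty → ℕ, (∀ j, M ≤ H j) →
        ∀ χ : Fin n → HeightOneSpectrum (𝓞 K) → ℂ, (∀ i v, ‖χ i v‖ ≤ 1) → ∀ s : ℂ, σ ≤ s.re →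
        ‖mean ω H smooth (fun t => ∏ i, chiL (cubic t) (χ i) s) -
          (∏ p ∈ pairs n, heckeL (fun v => χ p.1 v * χ p.2 v) (2 * s - 1)) * G χ s‖ ≤ ε) ∧
      (∀ σ : ℝ, 5 / 6 < σ → ∀ θ : ℝ, 0 < θ → ∀ ε : ℝ, 0 < ε → ∃ Z₀ : ℕ, ∀ Z : ℕ, Z₀ ≤ Z → ∀ H : Fin 2 ⊕ Empty → ℕ,
        (∀ j, Real.exp ((Z : ℝ) ^ (1 + θ)) ≤ H j) →
        ∀ χ : Fin n → HeightOneSpectrum (𝓞 K) → ℂ, (∀ i v, ‖χ i v‖ ≤ 1) → ∀ s : ℂ, σ ≤ s.re →
        ‖mean ω H smooth (fun t => ∏ i, chiPartial Z (cubic t) (χ i) s) *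
          (∏ p ∈ pairs n, heckeZ Z (fun v => χ p.1 v * χ p.2 v) (2 * s - 1))⁻¹ - G χ s‖ ≤ ε)) ∧
    (∀ (k : ℕ) (σ : ℝ), 5 / 6 < σ → ∃ B : ℝ, ∀ θ : ℝ, 0 < θ → ∃ Z₀ : ℕ, ∀ Z : ℕ, Z₀ ≤ Z → ∀ H : Fin 2 ⊕ Empty → ℕ,
      (∀ j, Real.exp ((Z : ℝ) ^ (1 + θ)) ≤ H j) →
      ∀ χ : HeightOneSpectrum (𝓞 K) → ℂ, (∀ v, ‖χ v‖ ≤ 1) → ∀ s : ℂ, σ ≤ s.re →
      ‖mean ω H smooth (fun t => ((‖chiPartial Z (cubic t) χ s‖ ^ (2 * k) : ℝ) : ℂ))‖ ≤
        B * zetaZ K Z (2 * s.re - 1) ^ (k * (2 * k - 1))) :=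
  ⟨fun n => ⟨GX K, fun _ hχ => GX_diff hχ, fun _ hσ => GX_bdd K n hσ, fun _ hχ hre _ hx => GX_real hχ hre hx,
    fun _ hσ _ hε => by simpa only [member_eq, smooth_eq] using hecke1 ω n hσ hε,
    fun _ hσ _ hθ _ hε => by simpa only [member_eq, smooth_eq] using hecke2 ω n hσ hθ hε⟩,
    fun k _ hσ => by simpa only [member_eq, smooth_eq] using hecke3 ω k hσ⟩

end Pool.Agent.Results.MP_87c685_nt.TwistsByTemperedForms
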